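import Pool.Agent.W630.Asm8
import Pool.Agent.W630.TC4
import Pool.Agent.W630.TD
import Pool.Agent.W630.TF3
import Pool.Agent.W85.LefG
import Pool.Agent.W63.G2
import Pool.Agent.W63.SH

/-!
# A Liouville hypersurface which is not a subdomain of the fibre of any Lefschetz fibration
-/

open scoped Topology ContDiff Manifold
open Pool.Agent.W630

universe u v

/-- There are a connected Liouville manifold `X` of dimension `6` admitting a Lefschetz fibration
over `ℂ`, and a connected Liouville hypersurface `F` of its ideal boundary, such that for no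
Lefschetz fibration of `X` over `ℂ` the hypersurface `F` is a Liouville subdomain of the fibre. -/
theorem Pool.Agent.Results.MP_639418_gt.FibreCounterexample.result :
    ∃ (E : Type) (_ : NormedAddCommGroup E) (_ : NormedSpace ℝ E) (G : Type)
      (_ : NormedAddCommGroup G) (_ : NormedSpace ℝ G)
      (X : Type) (_ : TopologicalSpace X) (_ : T2Space X) (_ : SecondCountableTopology X)
      (_ : ConnectedSpace X) (_ : ChartedSpace E X) (_ : IsManifold 𝓘(ℝ, E) ∞ X)
      (𝓧 : LiouvilleManifold E X), Module.finrank ℝ E = 6 ∧
      (∃ (W : Type) (_ : TopologicalSpace W) (_ : T2Space W) (_ : SecondCountableTopology W)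
        (_ : ChartedSpace G W) (_ : IsManifold 𝓘(ℝ, G) ∞ W),
        Nonempty (LefschetzFibration 𝓧 3 G W)) ∧
      ∃ (N : Type) (_ : TopologicalSpace N) (_ : T2Space N) (_ : SecondCountableTopology N)
        (_ : ChartedSpace G N) (_ : IsManifold 𝓘(ℝ, G) ∞ N)
        (F : LiouvilleHypersurface 𝓧 G N), IsConnected F.dom ∧
        ∀ (n : ℕ) (G' : Type u) [NormedAddCommGroup G'] [NormedSpace ℝ G']
          (W : Type v) [TopologicalSpace W] [ChartedSpace G' W] [IsManifold 𝓘(ℝ, G') ∞ W]
          (L : LefschetzFibration 𝓧 n G' W), ¬ IsSubdomainOfFibre F L :=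
  ⟨(ℝ × ℂ) × (Fin 3 → ℝ), inferInstance, inferInstance, ℝ × (Fin 3 → ℝ), inferInstance,
    inferInstance, XX, inferInstance, inferInstance, inferInstance, inferInstance, inferInstance,
    inferInstance, modX, by simp,
    ⟨WW, inferInstance, inferInstance, inferInstance, inferInstance, inferInstance, ⟨lfX⟩⟩,
    NN, inferInstance, inferInstance, inferInstance, inferInstance, inferInstance, hypX,
    isConnected_domN, fun _ _ _ _ _ _ _ _ L =>
      no_fibre TC.main TD.main TF.main Pool.Agent.W85.LefG.main Pool.Agent.W63.G2.main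
        Pool.Agent.W63.SH.main L⟩
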